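import Pool.Agent.helper68.SF.SpecW

/-! # sw:C5A. First differences -/

set_option autoImplicit false

namespace SF

theorem C5A_one (h h' : ℝ → ℝ) (t0 u v : ℝ) (huv : u ≤ v) (hc : Continuous h)
    (hd : ∀ t, t ≠ t0 → HasDerivAt h (h' t) t) (hi : IntervalIntegrable h' MeasureTheory.volume u v) :
    |h v - h u| ≤ ∫ t in u..v, |h' t| := by
  have h1 : ∫ t in u..v, h' t = h v - h u :=
    MeasureTheory.integral_eq_of_hasDerivAt_off_countable h h' (Set.countable_singleton t0)
      hc.continuousOn (fun x hx => hd x (by simpa using hx.2)) hi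
  rw [← h1]
  exact intervalIntegral.abs_integral_le_integral_abs huv

theorem C5A : C5A_stmt := by
  intro h h' a t0 hc hd hi
  have hia : IntervalIntegrable (fun t => |h' t|) MeasureTheory.volume a (a + 1) := hi.abs
  have sub : ∀ u v : ℝ, a ≤ u → u ≤ v → v ≤ a + 1 →
      IntervalIntegrable h' MeasureTheory.volume u v := by
    intro u v h1 h2 h3
    refine hi.mono_set ?_
    rw [Set.uIcc_of_le h2, Set.uIcc_of_le (by linarith)]
    exact Set.Icc_subset_Icc h1 h3
  have suba : ∀ u v : ℝ, a ≤ u → u ≤ v → v ≤ a + 1 →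
      IntervalIntegrable (fun t => |h' t|) MeasureTheory.volume u v := fun u v h1 h2 h3 =>
    (sub u v h1 h2 h3).abs
  have nn : ∀ u v : ℝ, u ≤ v → 0 ≤ ∫ t in u..v, |h' t| := fun u v huv =>
    intervalIntegral.integral_nonneg huv fun t _ => abs_nonneg _
  have e1 := C5A_one h h' t0 (a + 1 / 5) (a + 2 / 5) (by linarith) hc hd
    (sub _ _ (by linarith) (by linarith) (by linarith))
  have e2 := C5A_one h h' t0 (a + 3 / 5) (a + 4 / 5) (by linarith) hc hd
    (sub _ _ (by linarith) (by linarith) (by linarith))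
  have s1 : ∫ t in a..(a + 1), |h' t| = (∫ t in a..(a + 1 / 5), |h' t|) +
      (∫ t in (a + 1 / 5)..(a + 2 / 5), |h' t|) + (∫ t in (a + 2 / 5)..(a + 3 / 5), |h' t|) +
      (∫ t in (a + 3 / 5)..(a + 4 / 5), |h' t|) + ∫ t in (a + 4 / 5)..(a + 1), |h' t| := by
    rw [intervalIntegral.integral_add_adjacent_intervals, intervalIntegral.integral_add_adjacent_intervals,
      intervalIntegral.integral_add_adjacent_intervals, intervalIntegral.integral_add_adjacent_intervals]
    all_goals (apply suba <;> linarith)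
  have n1 := nn a (a + 1 / 5) (by linarith)
  have n2 := nn (a + 2 / 5) (a + 3 / 5) (by linarith)
  have n3 := nn (a + 4 / 5) (a + 1) (by linarith)
  have e3 : c5 (fun r => h (a + r)) =
      -(h (a + 2 / 5) - h (a + 1 / 5)) + (h (a + 4 / 5) - h (a + 3 / 5)) := by
    unfold c5
    ring
  rw [e3, s1]
  have e4 := abs_add_le (-(h (a + 2 / 5) - h (a + 1 / 5))) (h (a + 4 / 5) - h (a + 3 / 5))
  rw [abs_neg] at e4
  linarith

end SF
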