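import Pool.Agent.helper68.SF.SpecW

/-! # sw:PAIR. Pairs of primitive vectors with determinant 5 -/

set_option autoImplicit false

namespace SF

theorem PAIR_bez (v : ℤ × ℤ) (hv : v ∈ Pv) : dt (cpl v) v = 1 := by
  have h := Int.gcd_eq_gcd_ab v.1 v.2
  have h1 : Int.gcd v.1 v.2 = 1 := hv
  rw [h1] at h
  unfold dt cpl
  simp only
  push_cast at h
  linarith

theorem PAIR_rep (v P : ℤ × ℤ) (hv : v ∈ Pv) (h : dt v P = 5) :
    P = dt (cpl v) P • v - (5 : ℤ) • cpl v := by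
  have h1 := PAIR_bez v hv
  unfold dt at h h1 ⊢
  generalize cpl v = e at *
  apply Prod.ext
  · simp only [Prod.fst_sub, Prod.smul_fst, smul_eq_mul]
    linear_combination (-P.1) * h1 - e.1 * h
  · simp only [Prod.snd_sub, Prod.smul_snd, smul_eq_mul]
    linear_combination (-P.2) * h1 - e.2 * h

theorem PAIR_rep2 (u P : ℤ × ℤ) (hP : P ∈ Pv) (h : dt u P = 5) :
    u = (5 : ℤ) • cpl P + dt (cpl P) u • P := by
  have h1 := PAIR_bez P hP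
  unfold dt at h h1 ⊢
  generalize cpl P = f at *
  apply Prod.ext
  · simp only [Prod.fst_add, Prod.smul_fst, smul_eq_mul]
    linear_combination (-u.1) * h1 + f.1 * h
  · simp only [Prod.snd_add, Prod.smul_snd, smul_eq_mul]
    linear_combination (-u.2) * h1 + f.2 * h

theorem PAIR_d1 (v : ℤ × ℤ) (hv : v ∈ Pv) (m : ℤ) :
    dt v (m • v - (5 : ℤ) • cpl v) = 5 ∧ dt (cpl v) (m • v - (5 : ℤ) • cpl v) = m := by
  have h1 := PAIR_bez v hv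
  unfold dt at h1 ⊢
  generalize cpl v = e at *
  simp only [Prod.fst_sub, Prod.smul_fst, smul_eq_mul, Prod.snd_sub, Prod.smul_snd]
  constructor
  · linear_combination 5 * h1
  · linear_combination m * h1

theorem PAIR_d2 (P : ℤ × ℤ) (hP : P ∈ Pv) (m : ℤ) :
    dt ((5 : ℤ) • cpl P + m • P) P = 5 ∧ dt (cpl P) ((5 : ℤ) • cpl P + m • P) = m := by
  have h1 := PAIR_bez P hP
  unfold dt at h1 ⊢
  generalize cpl P = e at *
  simp only [Prod.fst_add, Prod.smul_fst, smul_eq_mul, Prod.snd_add, Prod.smul_snd]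
  constructor
  · linear_combination 5 * h1
  · linear_combination m * h1

theorem PAIR_prim (e P u : ℤ × ℤ) (h : dt u P = 5 ∨ dt P u = 5) (h5 : ¬ (5 : ℤ) ∣ dt e P) :
    P ∈ Pv := by
  have d1 : (Int.gcd P.1 P.2 : ℤ) ∣ P.1 := Int.gcd_dvd_left ..
  have d2 : (Int.gcd P.1 P.2 : ℤ) ∣ P.2 := Int.gcd_dvd_right ..
  have d3 : (Int.gcd P.1 P.2 : ℤ) ∣ 5 := by
    rcases h with h | h
    · rw [← h]
      exact dvd_sub (Dvd.dvd.mul_left d2 _) (Dvd.dvd.mul_left d1 _)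
    · rw [← h]
      exact dvd_sub (Dvd.dvd.mul_right d1 _) (Dvd.dvd.mul_right d2 _)
  have d4 : (Int.gcd P.1 P.2 : ℤ) ∣ dt e P :=
    dvd_sub (Dvd.dvd.mul_left d2 _) (Dvd.dvd.mul_left d1 _)
  have d5 : Int.gcd P.1 P.2 ∣ 5 := by exact_mod_cast d3
  rcases (Nat.Prime.eq_one_or_self_of_dvd (by norm_num : Nat.Prime 5) _ d5) with h1 | h1
  · exact h1
  · rw [h1] at d4
    exact absurd (by exact_mod_cast d4) h5

theorem PAIR_chi0 (m : ℤ) (h : (5 : ℤ) ∣ m) : chi m = 0 := by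
  have h1 : m % 5 = 0 := Int.emod_eq_zero_of_dvd h
  unfold chi
  rw [h1]
  norm_num

theorem PAIR_chi (m m' k : ℤ) (h : m * m' = 1 - 5 * k) : chi m = chi m' := by
  have h1 : (m % 5) * (m' % 5) % 5 = 1 := by
    rw [← Int.mul_emod, h]
    omega
  have h2 : 0 ≤ m % 5 := Int.emod_nonneg _ (by norm_num)
  have h3 : m % 5 < 5 := Int.emod_lt_of_pos _ (by norm_num)
  have h4 : 0 ≤ m' % 5 := Int.emod_nonneg _ (by norm_num)
  have h5 : m' % 5 < 5 := Int.emod_lt_of_pos _ (by norm_num)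
  unfold chi
  generalize m % 5 = a at *
  generalize m' % 5 = b at *
  interval_cases a <;> interval_cases b <;> first | (exfalso; revert h1; norm_num; done) | norm_num

/-- one side: the sum over pairs -/
theorem PAIR_side (A : Set ((ℤ × ℤ) × ℤ)) (hA : ∀ x, x ∈ A ↔ x.1 ∈ Pv)
    (ph : (ℤ × ℤ) × ℤ → (ℤ × ℤ) × (ℤ × ℤ)) (hph : Set.InjOn ph A)
    (G : (ℤ × ℤ) × (ℤ × ℤ) → ℝ) (S : Set ((ℤ × ℤ) × (ℤ × ℤ))) (hS : S.Finite)
    (hG : ∀ x ∈ A, G (ph x) ≠ 0 → ph x ∈ S) :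
    ∑ᶠ v ∈ Pv, ∑ᶠ m : ℤ, G (ph (v, m)) = ∑ᶠ y ∈ ph '' A, G y := by
  classical
  rw [finsum_mem_image hph, finsum_mem_def A]
  have hfin : (Function.support (A.indicator fun x => G (ph x))).Finite := by
    refine Set.Finite.of_injOn (t := S) (f := ph) ?_ ?_ hS
    · intro x hx
      rw [Set.support_indicator] at hx
      exact hG x hx.1 hx.2
    · refine hph.mono ?_
      intro x hx
      rw [Set.support_indicator] at hx
      exact hx.1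
  rw [finsum_curry _ hfin]
  refine finsum_congr fun v => ?_
  by_cases hv : v ∈ Pv
  · rw [finsum_eq_if, if_pos hv]
    refine finsum_congr fun m => ?_
    rw [Set.indicator_of_mem ((hA (v, m)).mpr hv)]
  · rw [finsum_eq_if, if_neg hv]
    symm
    rw [← finsum_zero (α := ℤ) (M := ℝ)]
    refine finsum_congr fun m => ?_
    rw [Set.indicator_of_notMem (fun h => hv ((hA (v, m)).mp h))]

theorem PAIR : PAIR_stmt := by
  intro H hfin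
  set A : Set ((ℤ × ℤ) × ℤ) := {x | x.1 ∈ Pv} with hAdef
  have hA : ∀ x, x ∈ A ↔ x.1 ∈ Pv := fun x => Iff.rfl
  set E : Set ((ℤ × ℤ) × (ℤ × ℤ)) := {p | dt p.1 p.2 = 5 ∧ p.1 ∈ Pv ∧ p.2 ∈ Pv} with hE
  set S : Set ((ℤ × ℤ) × (ℤ × ℤ)) :=
    {p | dt p.1 p.2 = 5 ∧ p.1 ∈ Pv ∧ p.2 ∈ Pv ∧ H p.1 p.2 ≠ 0} with hSdef
  -- first side
  set G1 : (ℤ × ℤ) × (ℤ × ℤ) → ℝ := fun p => chi (dt (cpl p.1) p.2) * H p.1 p.2 with hG1
  set ph1 : (ℤ × ℤ) × ℤ → (ℤ × ℤ) × (ℤ × ℤ) := fun x =>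
    (x.1, x.2 • x.1 - (5 : ℤ) • cpl x.1) with hph1
  have inj1 : Set.InjOn ph1 A := by
    rintro ⟨v, m⟩ hx ⟨v', m'⟩ hx' h
    simp only [hph1, Prod.mk.injEq] at h
    obtain ⟨rfl, h2⟩ := h
    have e1 := (PAIR_d1 v hx m).2
    have e2 := (PAIR_d1 v hx m').2
    rw [h2] at e1
    rw [Prod.mk.injEq]
    exact ⟨rfl, e1.symm.trans e2⟩
  have mem1 : ∀ x ∈ A, G1 (ph1 x) ≠ 0 → ph1 x ∈ S := by
    rintro ⟨v, m⟩ hx h
    have e1 := PAIR_d1 v hx m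
    simp only [hG1, hph1, e1.2] at h
    have h5 : ¬ (5 : ℤ) ∣ m := fun h' => h (by rw [PAIR_chi0 m h', zero_mul])
    refine ⟨e1.1, hx, ?_, right_ne_zero_of_mul h⟩
    exact PAIR_prim (cpl v) _ v (Or.inl e1.1) (by rw [e1.2]; exact h5)
  have side1 := PAIR_side A hA ph1 inj1 G1 S hfin mem1
  have lhs1 : ∑ᶠ v ∈ Pv, ∑ᶠ m : ℤ, chi m * H v (m • v - (5 : ℤ) • cpl v) =
      ∑ᶠ v ∈ Pv, ∑ᶠ m : ℤ, G1 (ph1 (v, m)) := by
    refine finsum_mem_congr rfl fun v hv => finsum_congr fun m => ?_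
    simp only [hG1, hph1, (PAIR_d1 v hv m).2]
  -- second side
  set G2 : (ℤ × ℤ) × (ℤ × ℤ) → ℝ := fun p => chi (dt (cpl p.2) p.1) * H p.1 p.2 with hG2
  set ph2 : (ℤ × ℤ) × ℤ → (ℤ × ℤ) × (ℤ × ℤ) := fun x =>
    ((5 : ℤ) • cpl x.1 + x.2 • x.1, x.1) with hph2
  have inj2 : Set.InjOn ph2 A := by
    rintro ⟨v, m⟩ hx ⟨v', m'⟩ hx' h
    simp only [hph2, Prod.mk.injEq] at h
    obtain ⟨h2, rfl⟩ := h
    have e1 := (PAIR_d2 v hx m).2
    have e2 := (PAIR_d2 v hx m').2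
    rw [h2] at e1
    rw [Prod.mk.injEq]
    exact ⟨rfl, e1.symm.trans e2⟩
  have mem2 : ∀ x ∈ A, G2 (ph2 x) ≠ 0 → ph2 x ∈ S := by
    rintro ⟨v, m⟩ hx h
    have e1 := PAIR_d2 v hx m
    simp only [hG2, hph2, e1.2] at h
    have h5 : ¬ (5 : ℤ) ∣ m := fun h' => h (by rw [PAIR_chi0 m h', zero_mul])
    refine ⟨e1.1, ?_, hx, right_ne_zero_of_mul h⟩
    exact PAIR_prim (cpl v) _ v (Or.inr e1.1) (by rw [e1.2]; exact h5)
  have side2 := PAIR_side A hA ph2 inj2 G2 S hfin mem2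
  have lhs2 : ∑ᶠ v ∈ Pv, ∑ᶠ m : ℤ, chi m * H ((5 : ℤ) • cpl v + m • v) v =
      ∑ᶠ v ∈ Pv, ∑ᶠ m : ℤ, G2 (ph2 (v, m)) := by
    refine finsum_mem_congr rfl fun v hv => finsum_congr fun m => ?_
    simp only [hG2, hph2, (PAIR_d2 v hv m).2]
  rw [lhs1, lhs2, side1, side2]
  have r1 : ∑ᶠ y ∈ ph1 '' A, G1 y = ∑ᶠ y ∈ E, G1 y := by
    refine finsum_mem_inter_support_eq _ _ _ ?_
    ext ⟨u, P⟩
    constructor
    · rintro ⟨⟨x, hx, hxy⟩, hs⟩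
      rw [← hxy] at hs ⊢
      obtain ⟨s1, s2, s3, -⟩ := mem1 x hx hs
      exact ⟨⟨s1, s2, s3⟩, hs⟩
    · rintro ⟨⟨h1, h2, h3⟩, hs⟩
      refine ⟨⟨(u, dt (cpl u) P), h2, ?_⟩, hs⟩
      simp only [hph1]
      rw [← PAIR_rep u P h2 h1]
  have r2 : ∑ᶠ y ∈ ph2 '' A, G2 y = ∑ᶠ y ∈ E, G2 y := by
    refine finsum_mem_inter_support_eq _ _ _ ?_
    ext ⟨u, P⟩
    constructor
    · rintro ⟨⟨x, hx, hxy⟩, hs⟩
      rw [← hxy] at hs ⊢
      obtain ⟨s1, s2, s3, -⟩ := mem2 x hx hs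
      exact ⟨⟨s1, s2, s3⟩, hs⟩
    · rintro ⟨⟨h1, h2, h3⟩, hs⟩
      refine ⟨⟨(P, dt (cpl P) u), h3, ?_⟩, hs⟩
      simp only [hph2]
      rw [← PAIR_rep2 u P h3 h1]
  rw [r1, r2]
  refine finsum_mem_congr rfl ?_
  rintro ⟨u, P⟩ ⟨h1, h2, h3⟩
  simp only [hG1, hG2]
  rw [PAIR_chi (dt (cpl u) P) (dt (cpl P) u) (dt (cpl u) (cpl P))]
  have b1 := PAIR_bez u h2
  have b2 := PAIR_bez P h3
  simp only at h1
  unfold dt at *
  generalize cpl u = e at *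
  generalize cpl P = f at *
  linear_combination (f.1 * P.2 - f.2 * P.1) * b1 + b2 - (e.1 * f.2 - e.2 * f.1) * h1

end SF
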