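import Pool.Agent.helper1.SF.SpecA

/-!
Project SF (MP_d52931_gt), module PKB: size of the derivatives of packets.
-/

set_option autoImplicit false

namespace SF

open MeasureTheory Set
open scoped ContDiff Topology

/-- smooth and zero outside `[1/16, 1]` -/
structure PKB_good (H : ℝ → ℝ) : Prop where
  sm : ContDiff ℝ ∞ H
  lo : ∀ w, w < 1 / 16 → H w = 0
  hi : ∀ w, 1 < w → H w = 0

theorem PKB_good_deriv {H : ℝ → ℝ} (h : PKB_good H) : PKB_good (deriv H) := by
  refine ⟨(contDiff_infty_iff_deriv.1 h.sm).2, ?_, ?_⟩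
  · intro w hw
    have h1 : H =ᶠ[𝓝 w] fun _ => 0 := by
      filter_upwards [eventually_lt_nhds hw] with x hx
      exact h.lo x hx
    rw [h1.deriv_eq]
    simp
  · intro w hw
    have h1 : H =ᶠ[𝓝 w] fun _ => 0 := by
      filter_upwards [eventually_gt_nhds hw] with x hx
      exact h.hi x hx
    rw [h1.deriv_eq]
    simp

theorem PKB_good_bdd {H : ℝ → ℝ} (h : PKB_good H) : ∃ C : ℝ, 0 ≤ C ∧ ∀ w, |H w| ≤ C := by
  obtain ⟨C, hC⟩ := (isCompact_Icc (a := (1 / 16 : ℝ)) (b := 1)).exists_bound_of_continuousOn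
    h.sm.continuous.continuousOn
  refine ⟨max C 0, le_max_right _ _, ?_⟩
  intro w
  by_cases h1 : w < 1 / 16
  · rw [h.lo w h1, abs_zero]
    exact le_max_right _ _
  · by_cases h2 : 1 < w
    · rw [h.hi w h2, abs_zero]
      exact le_max_right _ _
    · have h3 := hC w ⟨not_lt.1 h1, not_lt.1 h2⟩
      rw [Real.norm_eq_abs] at h3
      exact h3.trans (le_max_left _ _)

/-- the functions `H (2^k (1 - 1/a)) a^p` -/
noncomputable def PKB_Ps (k : ℕ) (H : ℝ → ℝ) (p : ℝ) (a : ℝ) : ℝ :=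
  if 1 < a then H (2 ^ k * (1 - 1 / a)) * a ^ p else 0

theorem PKB_zero {H : ℝ → ℝ} (h : PKB_good H) (k : ℕ) (p : ℝ) {a : ℝ}
    (ha : a < 1 + 1 / (16 * 2 ^ k)) : PKB_Ps k H p a = 0 := by
  unfold PKB_Ps
  by_cases h1 : 1 < a
  · rw [if_pos h1, h.lo _ ?_, zero_mul]
    have ha0 : (0 : ℝ) < a := by linarith
    have h2 : 1 - 1 / a < 1 / (16 * 2 ^ k) := by
      have h3 : 1 - 1 / a ≤ a - 1 := by
        have h4 : a - 1 - (1 - 1 / a) = (a - 1) ^ 2 / a := by
          field_simp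
        have h5 : 0 ≤ (a - 1) ^ 2 / a := by positivity
        linarith
      linarith
    have hk : (0 : ℝ) < 2 ^ k := by positivity
    calc (2 : ℝ) ^ k * (1 - 1 / a) < 2 ^ k * (1 / (16 * 2 ^ k)) :=
          mul_lt_mul_of_pos_left h2 hk
      _ = 1 / 16 := by field_simp
  · rw [if_neg h1]

theorem PKB_hasDeriv {H : ℝ → ℝ} (h : PKB_good H) (k : ℕ) (p a : ℝ) :
    HasDerivAt (PKB_Ps k H p)
      (2 ^ k * PKB_Ps k (deriv H) (p - 2) a + p * PKB_Ps k H (p - 1) a) a := by
  by_cases ha : a < 1 + 1 / (16 * 2 ^ k)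
  · rw [PKB_zero (PKB_good_deriv h) k _ ha, PKB_zero h k _ ha, mul_zero, mul_zero, add_zero]
    have h1 : PKB_Ps k H p =ᶠ[𝓝 a] fun _ => 0 := by
      filter_upwards [eventually_lt_nhds ha] with x hx
      exact PKB_zero h k p hx
    exact (hasDerivAt_const a (0 : ℝ)).congr_of_eventuallyEq h1
  · have h1a : 1 < a := by
      have h2 : (0 : ℝ) < 1 / (16 * 2 ^ k) := by positivity
      linarith [not_lt.1 ha]
    have ha0 : (0 : ℝ) < a := by linarith
    have h1 : PKB_Ps k H p =ᶠ[𝓝 a] fun a => H (2 ^ k * (1 - 1 / a)) * a ^ p := by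
      filter_upwards [eventually_gt_nhds h1a] with x hx
      exact if_pos hx
    have e1 : PKB_Ps k (deriv H) (p - 2) a = deriv H (2 ^ k * (1 - 1 / a)) * a ^ (p - 2) :=
      if_pos h1a
    have e2 : PKB_Ps k H (p - 1) a = H (2 ^ k * (1 - 1 / a)) * a ^ (p - 1) := if_pos h1a
    rw [e1, e2]
    have hu : HasDerivAt (fun x : ℝ => 2 ^ k * (1 - 1 / x)) (2 ^ k * (a ^ 2)⁻¹) a := by
      have h3 : HasDerivAt (fun x : ℝ => x⁻¹) (-(a ^ 2)⁻¹) a := hasDerivAt_inv ha0.ne'
      have h4 := (h3.const_sub 1).const_mul ((2 : ℝ) ^ k)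
      simp only [neg_neg] at h4
      simpa only [one_div] using h4
    have hH : HasDerivAt H (deriv H (2 ^ k * (1 - 1 / a))) (2 ^ k * (1 - 1 / a)) :=
      ((h.sm.differentiable (by simp)) _).hasDerivAt
    have hc : HasDerivAt (fun x : ℝ => H (2 ^ k * (1 - 1 / x)))
        (deriv H (2 ^ k * (1 - 1 / a)) * (2 ^ k * (a ^ 2)⁻¹)) a := hH.comp a hu
    have hp : HasDerivAt (fun x : ℝ => x ^ p) (p * a ^ (p - 1)) a :=
      Real.hasDerivAt_rpow_const (Or.inl ha0.ne')
    have hm := hc.mul hp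
    refine (hm.congr_of_eventuallyEq h1).congr_deriv ?_
    have e3 : a ^ (p - 2) = a ^ p * (a ^ 2)⁻¹ := by
      rw [Real.rpow_sub ha0, div_eq_mul_inv]
      congr 2
      exact_mod_cast Real.rpow_natCast a 2
    rw [e3]
    ring

theorem PKB_ind (j : ℕ) : ∀ (H : ℝ → ℝ), PKB_good H → ∀ p : ℝ, p ≤ 0 →
    ∃ C : ℝ, 0 ≤ C ∧ ∀ k : ℕ, ContDiff ℝ j (PKB_Ps k H p) ∧
      ∀ a, |iteratedDeriv j (PKB_Ps k H p) a| ≤ C * (2 ^ k) ^ j := by
  induction j with
  | zero =>
    intro H h p hp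
    obtain ⟨C, hC, hb⟩ := PKB_good_bdd h
    refine ⟨C, hC, ?_⟩
    intro k
    refine ⟨?_, ?_⟩
    · rw [Nat.cast_zero, contDiff_zero]
      exact continuous_iff_continuousAt.2 fun a => (PKB_hasDeriv h k p a).continuousAt
    · intro a
      rw [iteratedDeriv_zero, pow_zero, mul_one]
      unfold PKB_Ps
      split_ifs with h1
      · rw [abs_mul]
        have h2 : |a ^ p| ≤ 1 := by
          rw [abs_of_nonneg (Real.rpow_nonneg (by linarith) p)]
          exact Real.rpow_le_one_of_one_le_of_nonpos h1.le hp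
        calc |H (2 ^ k * (1 - 1 / a))| * |a ^ p| ≤ C * 1 :=
              mul_le_mul (hb _) h2 (abs_nonneg _) hC
          _ = C := mul_one C
      · rw [abs_zero]
        exact hC
  | succ j ih =>
    intro H h p hp
    obtain ⟨C1, hC1, h1⟩ := ih (deriv H) (PKB_good_deriv h) (p - 2) (by linarith)
    obtain ⟨C2, hC2, h2⟩ := ih H h (p - 1) (by linarith)
    refine ⟨C1 + |p| * C2, by positivity, ?_⟩
    intro k
    have hd : deriv (PKB_Ps k H p) =
        fun a => 2 ^ k * PKB_Ps k (deriv H) (p - 2) a + p * PKB_Ps k H (p - 1) a := by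
      funext a
      exact (PKB_hasDeriv h k p a).deriv
    obtain ⟨s1, b1⟩ := h1 k
    obtain ⟨s2, b2⟩ := h2 k
    refine ⟨?_, ?_⟩
    · rw [Nat.cast_succ, contDiff_succ_iff_deriv]
      refine ⟨fun a => (PKB_hasDeriv h k p a).differentiableAt, ?_, ?_⟩
      · intro hw
        exact absurd hw (by simp)
      · rw [hd]
        exact (contDiff_const.mul s1).add (contDiff_const.mul s2)
    · intro a
      rw [iteratedDeriv_succ', hd]
      have e1 : ContDiffAt ℝ j (fun a => (2 : ℝ) ^ k * PKB_Ps k (deriv H) (p - 2) a) a :=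
        (contDiff_const.mul s1).contDiffAt
      have e2 : ContDiffAt ℝ j (fun a => p * PKB_Ps k H (p - 1) a) a :=
        (contDiff_const.mul s2).contDiffAt
      rw [iteratedDeriv_fun_add e1 e2, iteratedDeriv_const_mul_field,
        iteratedDeriv_const_mul_field]
      have hk : (1 : ℝ) ≤ 2 ^ k := one_le_pow₀ (by norm_num)
      have hk0 : (0 : ℝ) ≤ 2 ^ k := by positivity
      have hkj : (0 : ℝ) ≤ (2 ^ k) ^ j := by positivity
      calc |2 ^ k * iteratedDeriv j (PKB_Ps k (deriv H) (p - 2)) a +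
            p * iteratedDeriv j (PKB_Ps k H (p - 1)) a|
          ≤ |2 ^ k * iteratedDeriv j (PKB_Ps k (deriv H) (p - 2)) a| +
            |p * iteratedDeriv j (PKB_Ps k H (p - 1)) a| := abs_add_le _ _
        _ ≤ 2 ^ k * (C1 * (2 ^ k) ^ j) + |p| * (C2 * (2 ^ k) ^ j) := by
            rw [abs_mul, abs_mul, abs_of_nonneg hk0]
            exact add_le_add (mul_le_mul_of_nonneg_left (b1 a) hk0)
              (mul_le_mul_of_nonneg_left (b2 a) (abs_nonneg p))
        _ ≤ 2 ^ k * (C1 * (2 ^ k) ^ j) + 2 ^ k * (|p| * (C2 * (2 ^ k) ^ j)) := by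
            have h3 : 0 ≤ |p| * (C2 * (2 ^ k) ^ j) := by positivity
            have h4 := mul_le_mul_of_nonneg_right hk h3
            rw [one_mul] at h4
            linarith
        _ = (C1 + |p| * C2) * (2 ^ k) ^ (j + 1) := by ring

theorem PKB_pk (k : ℕ) : pk k = fun a => (√(2 ^ k))⁻¹ * PKB_Ps k E0 (-(1 / 2)) a := by
  funext a
  unfold pk PKB_Ps
  split_ifs with h1
  · have ha0 : (0 : ℝ) < a := by linarith
    rw [Real.sqrt_mul (by positivity), Real.rpow_neg ha0.le, ← Real.sqrt_eq_rpow, div_eq_mul_inv,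
      mul_inv]
    ring
  · rw [mul_zero]

theorem PKB (hA : PKA_stmt) : PKB_stmt := by
  obtain ⟨a1, a2, _⟩ := hA
  have hg : PKB_good E0 := by
    refine ⟨a1, ?_, ?_⟩
    · intro w hw
      by_contra h
      linarith [(a2 w h).1]
    · intro w hw
      by_contra h
      linarith [(a2 w h).2]
  choose C hC hb using fun j => PKB_ind j E0 hg (-(1 / 2)) (by norm_num)
  refine ⟨1 + ∑ j ∈ Finset.range 13, C j, ?_, ?_⟩
  · have : 0 ≤ ∑ j ∈ Finset.range 13, C j := Finset.sum_nonneg fun j _ => hC j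
    linarith
  · intro k j hj a
    rw [PKB_pk, iteratedDeriv_const_mul_field, abs_mul]
    have hk : (1 : ℝ) ≤ 2 ^ k := one_le_pow₀ (by norm_num)
    have h1 : |(√(2 ^ k : ℝ))⁻¹| ≤ 1 := by
      rw [abs_of_nonneg (by positivity)]
      apply inv_le_one_of_one_le₀
      rw [Real.one_le_sqrt]
      exact hk
    have h2 := (hb j k).2 a
    have h3 : ((2 : ℝ) ^ k) ^ j ≤ 2 ^ (12 * k) := by
      rw [← pow_mul]
      apply pow_le_pow_right₀ (by norm_num)
      rw [mul_comm]
      exact Nat.mul_le_mul_right k hj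
    have h4 : C j ≤ 1 + ∑ j ∈ Finset.range 13, C j := by
      have := Finset.single_le_sum (fun i _ => hC i) (Finset.mem_range.2 (Nat.lt_succ_of_le hj))
      linarith
    calc |(√(2 ^ k : ℝ))⁻¹| * |iteratedDeriv j (PKB_Ps k E0 (-(1 / 2))) a|
        ≤ 1 * (C j * (2 ^ k) ^ j) := mul_le_mul h1 h2 (abs_nonneg _) zero_le_one
      _ = C j * (2 ^ k) ^ j := one_mul _
      _ ≤ (1 + ∑ j ∈ Finset.range 13, C j) * 2 ^ (12 * k) := by
          apply mul_le_mul h4 h3 (by positivity)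
          have : 0 ≤ ∑ j ∈ Finset.range 13, C j := Finset.sum_nonneg fun j _ => hC j
          linarith

end SF
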