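import Pool.Agent.helper72.SF.SpecT

/-! # st:T8. Decomposition of words by suffixes -/

set_option autoImplicit false

namespace SF

theorem T8_inj (s : List Bool) : Function.Injective fun w : List Bool => w ++ s :=
  List.append_left_injective s

theorem T8_fin (S : Set (List Bool)) (hS : S.Finite) (s : List Bool) : {w | w ++ s ∈ S}.Finite :=
  Set.Finite.preimage (T8_inj s).injOn hS

theorem T8_step (S : Set (List Bool)) (hS : S.Finite) (s : List Bool) :
    {w | w ++ (true :: s) ∈ S}.ncard + {w | w ++ (false :: s) ∈ S}.ncard ≤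
      {w | w ++ s ∈ S}.ncard ∧
    {w | w ++ s ∈ S}.ncard ≤
      {w | w ++ (true :: s) ∈ S}.ncard + {w | w ++ (false :: s) ∈ S}.ncard + 1 := by
  have e : {w | w ++ s ∈ S} \ {[]} =
      (fun w => w ++ [true]) '' {w | w ++ (true :: s) ∈ S} ∪
        (fun w => w ++ [false]) '' {w | w ++ (false :: s) ∈ S} := by
    ext w
    constructor
    · rintro ⟨h1, h2⟩
      rcases List.eq_nil_or_concat w with h | ⟨w', b, rfl⟩
      · exact absurd h h2
      · have h3 : w' ++ (b :: s) ∈ S := by
          have h4 : (w' ++ [b]) ++ s ∈ S := by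
            simpa using h1
          simpa using h4
        cases b
        · exact Or.inr ⟨w', h3, by simp⟩
        · exact Or.inl ⟨w', h3, by simp⟩
    · rintro (⟨w', h1, rfl⟩ | ⟨w', h1, rfl⟩)
      · refine ⟨?_, by simp⟩
        have h4 : w' ++ (true :: s) ∈ S := h1
        show (w' ++ [true]) ++ s ∈ S
        simpa using h4
      · refine ⟨?_, by simp⟩
        have h4 : w' ++ (false :: s) ∈ S := h1
        show (w' ++ [false]) ++ s ∈ S
        simpa using h4
  have hd : Disjoint ((fun w => w ++ [true]) '' {w | w ++ (true :: s) ∈ S})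
      ((fun w => w ++ [false]) '' {w | w ++ (false :: s) ∈ S}) := by
    rw [Set.disjoint_left]
    rintro w ⟨w1, _, h1⟩ ⟨w2, _, h2⟩
    have h3 : w1 ++ [true] = w2 ++ [false] := h1.trans h2.symm
    have h4 := congrArg List.getLast? h3
    simp at h4
  have c1 : ((fun w => w ++ [true]) '' {w | w ++ (true :: s) ∈ S}).ncard =
      {w | w ++ (true :: s) ∈ S}.ncard := Set.ncard_image_of_injective _ (T8_inj _)
  have c2 : ((fun w => w ++ [false]) '' {w | w ++ (false :: s) ∈ S}).ncard =
      {w | w ++ (false :: s) ∈ S}.ncard := Set.ncard_image_of_injective _ (T8_inj _)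
  have c3 := congrArg Set.ncard e
  rw [Set.ncard_union_eq hd ((T8_fin S hS _).image _) ((T8_fin S hS _).image _), c1, c2] at c3
  constructor
  · rw [← c3]
    exact Set.ncard_le_ncard Set.sdiff_subset (T8_fin S hS s)
  · rw [← c3]
    have h := Set.ncard_le_ncard_sdiff_add_ncard {w | w ++ s ∈ S} {[]} (Set.finite_singleton _)
    rw [Set.ncard_singleton] at h
    exact h

theorem T8 : T8_stmt := by
  intro S hS
  have h0 := T8_step S hS []
  have hT := T8_step S hS [true]
  have hF := T8_step S hS [false]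
  have hFF := T8_step S hS [false, false]
  have hTT := T8_step S hS [true, true]
  have e : {w | w ++ [] ∈ S} = S := by
    ext w
    simp
  rw [e] at h0
  have b0 : ((S.ncard : ℕ) : ℝ) - ({w | w ++ [true] ∈ S}.ncard + {w | w ++ [false] ∈ S}.ncard) ≤ 1 ∧
      0 ≤ ((S.ncard : ℕ) : ℝ) - ({w | w ++ [true] ∈ S}.ncard + {w | w ++ [false] ∈ S}.ncard) := by
    constructor
    · have := h0.2
      have h : ((S.ncard : ℕ) : ℝ) ≤ {w | w ++ [true] ∈ S}.ncard + {w | w ++ [false] ∈ S}.ncard + 1 := by
        exact_mod_cast this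
      linarith
    · have := h0.1
      have h : (({w | w ++ [true] ∈ S}.ncard : ℝ)) + {w | w ++ [false] ∈ S}.ncard ≤ (S.ncard : ℝ) := by
        exact_mod_cast this
      linarith
  have cast : ∀ a b c : ℕ, (a + b ≤ c ∧ c ≤ a + b + 1) → (a : ℝ) + b ≤ c ∧ (c : ℝ) ≤ a + b + 1 := by
    intro a b c h
    exact ⟨by exact_mod_cast h.1, by exact_mod_cast h.2⟩
  have kT := cast _ _ _ hT
  have kF := cast _ _ _ hF
  have kFF := cast _ _ _ hFF
  have kTT := cast _ _ _ hTT
  constructor
  · rw [abs_le]
    constructor <;> linarith [b0.1, b0.2, kT.1, kT.2, kF.1, kF.2, kFF.1, kFF.2]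
  · rw [abs_le]
    constructor <;> linarith [b0.1, b0.2, kT.1, kT.2, kF.1, kF.2, kTT.1, kTT.2]

end SF
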